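import Mathlib

/-!
# A counterexample: `x² + 455 kⁿ = 489626271744` has exactly five solutions for `k = 4` and for `k = 2`

The five solutions for `k = 4` are `(x, n) = (699733, 0)`, `(699392, 10)`, `(698368, 11)`, `(606208, 14)`, `(32768, 15)`.
-/

set_option autoImplicit false

namespace Pool.Agent.Results.MP_ca3412_nt.FiveSolutions

/-- the set of solutions `(x, n)` of `x² + A kⁿ = B` in non-negative integers -/
def Sol (k A B : ℕ) : Set (ℕ × ℕ) := {p | p.1 ^ 2 + A * k ^ p.2 = B}

/-- `N(k, A, B)`, the number of solutions (`⊤` if there are infinitely many) -/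
noncomputable def N (k A B : ℕ) : ℕ∞ := (Sol k A B).encard

/-- the five solutions for `k = 2` -/
def L : Finset (ℕ × ℕ) := {(699733, 0), (699392, 20), (698368, 22), (606208, 28), (32768, 30)}

/-- the five solutions for `k = 4` -/
def L4 : Finset (ℕ × ℕ) := {(699733, 0), (699392, 10), (698368, 11), (606208, 14), (32768, 15)}

/-- integer parts of the square roots of `489626271744 - 455 * 2 ^ n` -/
def tab : List ℕ := [699733, 699732, 699732, 699732, 699732, 699732, 699732, 699732, 699732, 699732, 699732, 699732,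
  699731, 699730, 699727, 699722, 699711, 699690, 699647, 699562, 699392, 699050, 698368, 697000, 694256, 688737,
  677563, 654642, 606208, 495328, 32768]

theorem tab_spec : ∀ n < 31, (tab.getD n 0) ^ 2 + 455 * 2 ^ n ≤ 489626271744 ∧
    489626271744 < (tab.getD n 0 + 1) ^ 2 + 455 * 2 ^ n ∧
    ((tab.getD n 0) ^ 2 + 455 * 2 ^ n = 489626271744 → (tab.getD n 0, n) ∈ L) := by
  decide +kernel

theorem lt31 (x n : ℕ) (h : x ^ 2 + 455 * 2 ^ n = 489626271744) : n < 31 := by
  by_contra hn
  have h1 : 2 ^ 31 ≤ 2 ^ n := Nat.pow_le_pow_right (by norm_num) (by omega)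
  have h2 : (2 : ℕ) ^ 31 = 2147483648 := by norm_num
  have h3 : 455 * 2 ^ n ≤ 489626271744 := by omega
  omega

theorem sol2 : Sol 2 455 489626271744 = (L : Set (ℕ × ℕ)) := by
  ext ⟨x, n⟩
  constructor
  · intro h
    have h' : x ^ 2 + 455 * 2 ^ n = 489626271744 := h
    have hn := lt31 x n h'
    obtain ⟨h1, h2, h3⟩ := tab_spec n hn
    have hx1 : tab.getD n 0 ≤ x := by
      by_contra hc
      have : x ^ 2 < (tab.getD n 0) ^ 2 := Nat.pow_lt_pow_left (by omega) (by norm_num)
      omega
    have hx2 : x ≤ tab.getD n 0 := by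
      by_contra hc
      have : (tab.getD n 0 + 1) ^ 2 ≤ x ^ 2 := Nat.pow_le_pow_left (by omega) 2
      omega
    have hx : tab.getD n 0 = x := le_antisymm hx1 hx2
    rw [hx] at h3
    exact_mod_cast h3 h'
  · intro h
    have h0 : ∀ p ∈ L, p.1 ^ 2 + 455 * 2 ^ p.2 = 489626271744 := by decide +kernel
    exact h0 (x, n) (by exact_mod_cast h)

theorem sol4 : Sol 4 455 489626271744 = (L4 : Set (ℕ × ℕ)) := by
  have h4 : ∀ n : ℕ, (4 : ℕ) ^ n = 2 ^ (2 * n) := by
    intro n; rw [pow_mul]; norm_num
  ext ⟨x, n⟩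
  constructor
  · intro h
    have h' : x ^ 2 + 455 * 4 ^ n = 489626271744 := h
    rw [h4] at h'
    have h2 : (x, 2 * n) ∈ Sol 2 455 489626271744 := h'
    rw [sol2] at h2
    have h3 : (x, 2 * n) ∈ L := by exact_mod_cast h2
    have h5 : (x, n) ∈ L4 := by
      simp only [L, Finset.mem_insert, Finset.mem_singleton, Prod.mk.injEq] at h3
      simp only [L4, Finset.mem_insert, Finset.mem_singleton, Prod.mk.injEq]
      omega
    exact_mod_cast h5
  · intro h
    have h0 : ∀ p ∈ L4, p.1 ^ 2 + 455 * 4 ^ p.2 = 489626271744 := by decide +kernel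
    exact h0 (x, n) (by exact_mod_cast h)

/-- The equation `x² + 455 kⁿ = 489626271744` has exactly five solutions in non-negative integers, for `k = 4` and for
`k = 2`. So `N(k, A, B) ≤ 4` is false in general. -/
theorem result : N 4 455 489626271744 = 5 ∧ N 2 455 489626271744 = 5 ∧
    ¬ ∀ k A B : ℕ, 2 ≤ k → 1 ≤ A → 1 ≤ B → N k A B ≤ 4 := by
  have c4 : N 4 455 489626271744 = 5 := by
    unfold N
    rw [sol4, Set.encard_coe_eq_coe_finsetCard]
    rfl
  have c2 : N 2 455 489626271744 = 5 := by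
    unfold N
    rw [sol2, Set.encard_coe_eq_coe_finsetCard]
    rfl
  refine ⟨c4, c2, fun h => ?_⟩
  have h1 := h 4 455 489626271744 (by norm_num) (by norm_num) (by norm_num)
  rw [c4] at h1
  exact absurd h1 (by decide)

end Pool.Agent.Results.MP_ca3412_nt.FiveSolutions
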